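import Pool.Agent.X147.BeerC

/-!
Sets of large Beer index contain the boundary of a large triangle.
-/

namespace Pool.Agent.Results.MP_40f41c_co.LargeTriangle

open MeasureTheory Pool.Agent.X147.Beer

/-- The set of pairs of points of `S` whose joining segment lies in `S`. -/
def Seg (S : Set (ℝ × ℝ)) : Set ((ℝ × ℝ) × (ℝ × ℝ)) :=
  {p | p.1 ∈ S ∧ p.2 ∈ S ∧ segment ℝ p.1 p.2 ⊆ S}

/-- The Beer index of convexity. -/
noncomputable def beer (S : Set (ℝ × ℝ)) : ENNReal :=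
  volume (Seg S) / volume S ^ 2

theorem not_collinear {p q r : ℝ × ℝ} (h : D p q r ≠ 0) :
    ¬ Collinear ℝ ({p, q, r} : Set (ℝ × ℝ)) := by
  intro hc
  rw [collinear_iff_of_mem (p₀ := p) (by simp)] at hc
  obtain ⟨v, hv⟩ := hc
  obtain ⟨s, hs⟩ := hv q (by simp)
  obtain ⟨t, ht⟩ := hv r (by simp)
  apply h
  rw [hs, ht]
  simp only [D, vadd_eq_add, Prod.fst_add, Prod.smul_fst, smul_eq_mul, Prod.snd_add,
    Prod.smul_snd]
  ring

theorem exists_big {S : Set (ℝ × ℝ)} {η : ℝ} (hη : 0 < η) (x y : (ℝ × ℝ) × (ℝ × ℝ) × (ℝ × ℝ))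
    (hS : ∀ b ∈ [y.1, y.2.1, y.2.2], segment ℝ x.1 b ⊆ S ∧ segment ℝ x.2.1 b ⊆ S ∧
      segment ℝ x.2.2 b ⊆ S)
    (hX : ∀ b ∈ [y.1, y.2.1, y.2.2], η ≤ |D x.1 x.2.1 b| ∧ η ≤ |D x.2.1 x.2.2 b| ∧
      η ≤ |D x.2.2 x.1 b|)
    (hY : ∀ a ∈ [x.1, x.2.1, x.2.2], η ≤ |D y.1 y.2.1 a| ∧ η ≤ |D y.2.1 y.2.2 a| ∧
      η ≤ |D y.2.2 y.1 a|) : Big S (η / 2) := by
  obtain ⟨x1, x2, x3⟩ := x
  obtain ⟨y1, y2, y3⟩ := y
  have ne : ∀ {t : ℝ}, η ≤ |t| → t ≠ 0 := by
    intro t ht h0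
    rw [h0, abs_zero] at ht
    linarith
  have hg := exists_good x1 x2 x3 y1 y2 y3
    (fun b hb => ⟨ne (hX b hb).1, ne (hX b hb).2.1, ne (hX b hb).2.2⟩)
    (fun a ha => ⟨ne (hY a ha).1, ne (hY a ha).2.1, ne (hY a ha).2.2⟩)
  simp only [List.mem_cons, List.not_mem_nil, or_false, forall_eq_or_imp, forall_eq] at hS hX hY
  obtain ⟨⟨s11, s21, s31⟩, ⟨s12, s22, s32⟩, ⟨s13, s23, s33⟩⟩ := hS
  obtain ⟨⟨a1, a2, a3⟩, ⟨b1, b2, b3⟩, ⟨c1, c2, c3⟩⟩ := hX
  obtain ⟨⟨d1, d2, d3⟩, ⟨e1, e2, e3⟩, ⟨f1, f2, f3⟩⟩ := hY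
  rcases hg with h | h | h | h | h | h | h | h | h
  · exact big_of_good hη s11 s12 s21 s22 a1 b1 d1 e1 h
  · exact big_of_good hη s12 s13 s22 s23 b1 c1 d2 e2 h
  · exact big_of_good hη s13 s11 s23 s21 c1 a1 d3 e3 h
  · exact big_of_good hη s21 s22 s31 s32 a2 b2 e1 f1 h
  · exact big_of_good hη s22 s23 s32 s33 b2 c2 e2 f2 h
  · exact big_of_good hη s23 s21 s33 s31 c2 a2 e3 f3 h
  · exact big_of_good hη s31 s32 s11 s12 a3 b3 f1 d1 h
  · exact big_of_good hη s32 s33 s12 s13 b3 c3 f2 d2 h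
  · exact big_of_good hη s33 s31 s13 s11 c3 a3 f3 d3 h

theorem main {ε : ℝ} (hε : 0 < ε) (S : Set (ℝ × ℝ)) (h0 : volume S ≠ 0) (hfin : volume S ≠ ⊤)
    (hSeg : NullMeasurableSet (Seg S)) (hb : ENNReal.ofReal ε ≤ beer S) :
    Big S (ε ^ 9 / 200 * (volume S).toReal / 2) := by
  set m : ENNReal := volume S with hm
  set S₁ : Set (ℝ × ℝ) := toMeasurable volume S with hS₁
  have hS₁m : MeasurableSet S₁ := measurableSet_toMeasurable _ _
  have hvS₁ : volume S₁ = m := measure_toMeasurable S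
  set ν : Measure (ℝ × ℝ) := volume.restrict S₁ with hν
  have : IsFiniteMeasure ν := ⟨by
    rw [hν, Measure.restrict_apply_univ, hvS₁]
    exact lt_top_iff_ne_top.mpr hfin⟩
  set μ : Measure (ℝ × ℝ) := m⁻¹ • ν with hμ
  have : IsProbabilityMeasure μ := ⟨by
    rw [hμ, Measure.smul_apply, hν, Measure.restrict_apply_univ, hvS₁, smul_eq_mul,
      ENNReal.inv_mul_cancel h0 hfin]⟩
  have hκ : ∀ s, μ s ≤ m⁻¹ * volume s := by
    intro s
    rw [hμ, Measure.smul_apply, smul_eq_mul]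
    gcongr
    exact Measure.restrict_le_self
  obtain ⟨A, hAsub, hAm, hAeq⟩ := hSeg.exists_measurable_subset_ae_eq
  have hAvol : volume A = volume (Seg S) := measure_congr hAeq
  have hAS : A ⊆ S₁ ×ˢ S₁ := by
    intro p hp
    have := hAsub hp
    exact ⟨subset_toMeasurable _ _ this.1, subset_toMeasurable _ _ this.2.1⟩
  have hprod : (μ.prod μ) A = m⁻¹ * (m⁻¹ * volume A) := by
    have h1 : (μ.prod μ) A = m⁻¹ * (m⁻¹ * (ν.prod ν) A) := by
      rw [hμ, Measure.prod_smul_left, Measure.prod_smul_right]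
      simp only [Measure.smul_apply, smul_eq_mul]
    rw [h1, hν, Measure.prod_restrict, Measure.restrict_apply hAm, Set.inter_eq_left.mpr hAS]
    rfl
  have hA : ENNReal.ofReal ε ≤ (μ.prod μ) A := by
    rw [hprod, hAvol]
    refine hb.trans (le_of_eq ?_)
    rw [beer, ENNReal.div_eq_inv_mul, ← mul_assoc, sq]
    congr 1
    exact ENNReal.mul_inv (Or.inl h0) (Or.inl hfin)
  have hmr : 0 < m.toReal := ENNReal.toReal_pos h0 hfin
  set η : ℝ := ε ^ 9 / 200 * m.toReal with hη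
  have hηpos : 0 < η := by positivity
  have hlt : 18 * (2 * (m⁻¹ * ENNReal.ofReal (4 * η))) < ((μ.prod μ) A) ^ 9 := by
    refine lt_of_lt_of_le ?_ (pow_le_pow_left₀ bot_le hA 9)
    have h1 : ENNReal.ofReal (4 * η) = ENNReal.ofReal (ε ^ 9 / 50) * m := by
      conv_rhs => rw [← ENNReal.ofReal_toReal hfin]
      rw [← ENNReal.ofReal_mul (by positivity)]
      congr 1
      rw [hη]
      ring
    have h2 : m⁻¹ * ENNReal.ofReal (4 * η) = ENNReal.ofReal (ε ^ 9 / 50) := by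
      rw [h1, mul_comm, mul_assoc, ENNReal.mul_inv_cancel h0 hfin, mul_one]
    rw [h2, ← ENNReal.ofReal_pow hε.le]
    have h3 : (18 : ENNReal) = ENNReal.ofReal 18 := by simp
    have h4 : (2 : ENNReal) = ENNReal.ofReal 2 := by simp
    rw [h3, h4, ← ENNReal.ofReal_mul (by norm_num), ← ENNReal.ofReal_mul (by norm_num)]
    have hpos : 0 < ε ^ 9 := by positivity
    rw [ENNReal.ofReal_lt_ofReal_iff hpos]
    linarith
  obtain ⟨x, y, hxA, hxT, hyT⟩ := select μ hAm (measT η) (pair_bound μ hκ η) hlt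
  refine exists_big hηpos x y ?_ ?_ ?_
  · intro b hb'
    obtain ⟨t1, t2, t3⟩ := hxA b hb'
    exact ⟨(hAsub t1).2.2, (hAsub t2).2.2, (hAsub t3).2.2⟩
  · intro b hb'
    obtain ⟨t1, t2, t3⟩ := hxT b hb'
    simp only [Set.mem_ofPred_eq, not_lt] at t1 t2 t3
    refine ⟨t1, t2, ?_⟩
    rw [D_swap, abs_neg]
    exact t3
  · intro a ha'
    obtain ⟨t1, t2, t3⟩ := hyT a ha'
    simp only [Set.mem_ofPred_eq, not_lt] at t1 t2 t3
    have cyc : ∀ u v w : ℝ × ℝ, D u v w = D w u v := by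
      intro u v w; simp only [D]; ring
    have neg : ∀ u v w : ℝ × ℝ, D u v w = - D w v u := by
      intro u v w; simp only [D]; ring
    refine ⟨?_, ?_, ?_⟩
    · rw [cyc]; exact t1
    · rw [cyc]; exact t2
    · rw [neg, abs_neg]; exact t3

/-- Full answer to Q1 (positive): for every `ε > 0` there is `δ > 0` such that every planar set
`S` of positive finite measure with Beer index at least `ε` contains the three sides of a
nondegenerate triangle of area at least `δ` times the measure of `S`. -/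
theorem result : ∀ ε : ℝ, 0 < ε → ∃ δ : ℝ, 0 < δ ∧
    ∀ S : Set (ℝ × ℝ), NullMeasurableSet S volume → volume S ≠ 0 → volume S ≠ ⊤ →
      NullMeasurableSet (Seg S) volume → ENNReal.ofReal ε ≤ beer S →
      ∃ p q r : ℝ × ℝ, ¬ Collinear ℝ ({p, q, r} : Set (ℝ × ℝ)) ∧
        segment ℝ p q ∪ segment ℝ q r ∪ segment ℝ r p ⊆ S ∧
        ENNReal.ofReal δ * volume S ≤ volume (convexHull ℝ ({p, q, r} : Set (ℝ × ℝ))) := by
  intro ε hε
  refine ⟨ε ^ 9 / 1600, by positivity, ?_⟩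
  intro S _ h0 hfin hSeg hb
  obtain ⟨p, q, r, h1, h2, h3, h4⟩ := main hε S h0 hfin hSeg hb
  have hmr : 0 < (volume S).toReal := ENNReal.toReal_pos h0 hfin
  have hpos : 0 < |D p q r| := lt_of_lt_of_le (by positivity) h4
  refine ⟨p, q, r, not_collinear (abs_pos.mp hpos), Set.union_subset (Set.union_subset h1 h2) h3, ?_⟩
  refine le_trans ?_ (triangle_area p q r)
  conv_lhs => rw [← ENNReal.ofReal_toReal hfin]
  rw [← ENNReal.ofReal_mul (by positivity)]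
  apply ENNReal.ofReal_le_ofReal
  linarith

end Pool.Agent.Results.MP_40f41c_co.LargeTriangle
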